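import Pool.Agent.Nks.MainE

/-!
# Powers of many generic forms have the generic Hilbert function
-/

set_option autoImplicit false

namespace Pool.Agent.Results.MP_e0014e_ag.ManyForms

/-- For `n ≥ 2`, `k ≥ 1`, all `d` and all `r ≥ (6 n k) ^ (3 n ^ 2)`: on a nonempty
Zariski-open set of `r`-tuples of complex forms `g` of degree `d` the ideal `(g_1^k, …, g_r^k)` has
dimension `min (r dim S_j) (dim S_(dk+j))` in every degree `dk + j`, and in every degree its dimension
is at least that of any ideal generated by `r` forms of degree `dk`. -/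
theorem result (n k : ℕ) (hn : 2 ≤ n) (hk : 1 ≤ k) :
    ∀ d r : ℕ, (6 * n * k) ^ (3 * n ^ 2) ≤ r →
      ∃ P : MvPolynomial (Fin r × (Fin n →₀ ℕ)) ℂ,
        (∃ g₀ : Fin r → MvPolynomial (Fin n) ℂ,
            (∀ i, (g₀ i).IsHomogeneous d) ∧
            MvPolynomial.eval
              (fun p : Fin r × (Fin n →₀ ℕ) => MvPolynomial.coeff p.2 (g₀ p.1)) P ≠ 0) ∧
        ∀ g : Fin r → MvPolynomial (Fin n) ℂ,
          (∀ i, (g i).IsHomogeneous d) →
          MvPolynomial.eval
              (fun p : Fin r × (Fin n →₀ ℕ) => MvPolynomial.coeff p.2 (g p.1)) P ≠ 0 →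
          (∀ j : ℕ,
            Module.finrank ℂ
                (↥(MvPolynomial.homogeneousSubmodule (Fin n) ℂ (d * k + j) ⊓
                  (Ideal.span (Set.range (fun i => g i ^ k))).restrictScalars ℂ)) =
              min (r * (n - 1 + j).choose (n - 1)) ((n - 1 + (d * k + j)).choose (n - 1))) ∧
          ∀ h : Fin r → MvPolynomial (Fin n) ℂ,
            (∀ i, (h i).IsHomogeneous (d * k)) →
            ∀ j : ℕ,
              Module.finrank ℂ
                  (↥(MvPolynomial.homogeneousSubmodule (Fin n) ℂ j ⊓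
                    (Ideal.span (Set.range h)).restrictScalars ℂ)) ≤
                Module.finrank ℂ
                  (↥(MvPolynomial.homogeneousSubmodule (Fin n) ℂ j ⊓
                    (Ideal.span (Set.range (fun i => g i ^ k))).restrictScalars ℂ)) := by
  intro d r hr
  obtain ⟨P, hP1, hP2⟩ := (Pool.Agent.Nks.main_e hn hk ℂ d r).2 hr
  refine ⟨P, hP1, ?_⟩
  intro g hg hgP
  obtain ⟨h1, h2⟩ := hP2 g hg hgP
  refine ⟨?_, h2⟩
  intro j
  have := h1 j
  rw [Pool.Agent.Nks.card_mon (by omega), Pool.Agent.Nks.card_mon (by omega)] at this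
  exact this

end Pool.Agent.Results.MP_e0014e_ag.ManyForms
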